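import Mathlib

/-!
# Project RL, part PER: the lattice is determined by `g₂`, `g₃`
-/

set_option autoImplicit false

namespace Pool.Agent.L7h65.RL2

open Filter Topology PeriodPair
open scoped ComplexConjugate

lemma punct (L : PeriodPair) (x : ℂ) : ∀ᶠ z in 𝓝[≠] x, z ∉ L.lattice := by
  have h1 : ((L.lattice : Set ℂ) \ {x})ᶜ ∈ 𝓝[≠] x :=
    mem_nhdsWithin_of_mem_nhds (L.compl_lattice_sdiff_singleton_mem_nhds x)
  have h2 : ({x} : Set ℂ)ᶜ ∈ 𝓝[≠] x := self_mem_nhdsWithin
  filter_upwards [h1, h2] with z hz hz' hzL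
  exact hz ⟨hzL, hz'⟩

lemma near (L M : PeriodPair) (h2' : M.g₂ = L.g₂) (h3' : M.g₃ = L.g₃) :
    ∀ᶠ z in 𝓝[≠] (0 : ℂ), ℘[L] z = ℘[M] z := by
  set P := weierstrassPExcept L 0 with hP
  set Q := weierstrassPExcept M 0 with hQ
  have aP : AnalyticAt ℂ P 0 := L.analyticAt_weierstrassPExcept 0
  have aQ : AnalyticAt ℂ Q 0 := M.analyticAt_weierstrassPExcept 0
  have eP : ∀ z : ℂ, ℘[L] z = P z + 1 / z ^ 2 := by
    intro z
    have := L.weierstrassPExcept_add 0 z
    simp only [ZeroMemClass.coe_zero, sub_zero] at this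
    rw [← this, hP]; simp
  have eQ : ∀ z : ℂ, ℘[M] z = Q z + 1 / z ^ 2 := by
    intro z
    have := M.weierstrassPExcept_add 0 z
    simp only [ZeroMemClass.coe_zero, sub_zero] at this
    rw [← this, hQ]; simp
  set P' := derivWeierstrassPExcept L 0 with hP'
  set Q' := derivWeierstrassPExcept M 0 with hQ'
  have aP' : AnalyticAt ℂ P' 0 := L.analyticAt_derivWeierstrassPExcept 0
  have aQ' : AnalyticAt ℂ Q' 0 := M.analyticAt_derivWeierstrassPExcept 0
  have eP' : ∀ z : ℂ, derivWeierstrassP L z = P' z - 2 / z ^ 3 := by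
    intro z
    have := L.derivWeierstrassPExcept_sub 0 z
    simp only [ZeroMemClass.coe_zero, sub_zero] at this
    rw [← this, hP']
  have eQ' : ∀ z : ℂ, derivWeierstrassP M z = Q' z - 2 / z ^ 3 := by
    intro z
    have := M.derivWeierstrassPExcept_sub 0 z
    simp only [ZeroMemClass.coe_zero, sub_zero] at this
    rw [← this, hQ']
  have dP : ∀ᶠ z in 𝓝 (0 : ℂ), deriv P z = P' z := by
    filter_upwards [L.compl_lattice_sdiff_singleton_mem_nhds 0] with z hz
    exact L.eqOn_deriv_weierstrassPExcept_derivWeierstrassPExcept 0 hz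
  have dQ : ∀ᶠ z in 𝓝 (0 : ℂ), deriv Q z = Q' z := by
    filter_upwards [M.compl_lattice_sdiff_singleton_mem_nhds 0] with z hz
    exact M.eqOn_deriv_weierstrassPExcept_derivWeierstrassPExcept 0 hz
  have aD : AnalyticAt ℂ (fun z => P z - Q z) 0 := aP.sub aQ
  have key : ∀ᶠ z in 𝓝 (0 : ℂ), P z - Q z = 0 := by
    by_contra hne
    obtain ⟨n, g, ag, g0, hg⟩ := aD.exists_eventuallyEq_pow_smul_nonzero_iff.2 hne
    have hF : ∀ᶠ z in 𝓝[≠] (0 : ℂ),
        ((n : ℂ) * g z + z * deriv g z) * (z ^ 3 * (P' z + Q' z) - 4) =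
          g z * (4 * (z ^ 4 * (P z ^ 2 + P z * Q z + Q z ^ 2) + 3 * z ^ 2 * (P z + Q z) + 3) -
            L.g₂ * z ^ 4) := by
      have hg' : ∀ᶠ z in 𝓝 (0 : ℂ), ∀ᶠ w in 𝓝 z, P w - Q w = (w - 0) ^ n • g w :=
        hg.eventually_nhds
      filter_upwards [mem_nhdsWithin_of_mem_nhds hg', mem_nhdsWithin_of_mem_nhds dP,
        mem_nhdsWithin_of_mem_nhds dQ, punct L 0, punct M 0, self_mem_nhdsWithin,
        mem_nhdsWithin_of_mem_nhds ag.eventually_analyticAt,
        mem_nhdsWithin_of_mem_nhds aP.eventually_analyticAt,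
        mem_nhdsWithin_of_mem_nhds aQ.eventually_analyticAt] with z h1 h2 h3 h4 h5 h6 h7 h8 h9
      have hz : z ≠ 0 := h6
      have hD : P z - Q z = z ^ n * g z := by
        have := h1.self_of_nhds
        simpa using this
      have hD' : z * (P' z - Q' z) = z ^ n * (n * g z + z * deriv g z) := by
        have e1 : deriv (fun w => P w - Q w) z = P' z - Q' z := by
          rw [deriv_fun_sub h8.differentiableAt h9.differentiableAt, h2, h3]
        have e2 : deriv (fun w => P w - Q w) z = deriv (fun w => w ^ n * g w) z := by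
          apply Filter.EventuallyEq.deriv_eq
          filter_upwards [h1] with w hw
          simpa using hw
        have e3 : deriv (fun w => w ^ n * g w) z = (n : ℂ) * z ^ (n - 1) * g z +
            z ^ n * deriv g z := by
          rw [deriv_fun_mul (by fun_prop) h7.differentiableAt]
          simp
        rw [← e1, e2, e3]
        rcases n with _ | m
        · simp
        · simp only [Nat.add_sub_cancel]; ring
      have r1 := L.derivWeierstrassP_sq z h4
      have r2 := M.derivWeierstrassP_sq z h5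
      rw [eP', eP] at r1
      rw [eQ', eQ, h2', h3'] at r2
      have r3 : (P' z - Q' z) * (P' z + Q' z - 4 / z ^ 3) =
          (P z - Q z) * (4 * ((P z + 1 / z ^ 2) ^ 2 + (P z + 1 / z ^ 2) * (Q z + 1 / z ^ 2) +
            (Q z + 1 / z ^ 2) ^ 2) - L.g₂) := by
        linear_combination r1 - r2
      have r4 : (z * (P' z - Q' z)) * (z ^ 3 * (P' z + Q' z) - 4) =
          (P z - Q z) * (4 * (z ^ 4 * (P z ^ 2 + P z * Q z + Q z ^ 2) + 3 * z ^ 2 * (P z + Q z) + 3) -
            L.g₂ * z ^ 4) := by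
        have e1 : (z * (P' z - Q' z)) * (z ^ 3 * (P' z + Q' z) - 4) =
            z ^ 4 * ((P' z - Q' z) * (P' z + Q' z - 4 / z ^ 3)) := by
          field_simp
        rw [e1, r3]
        field_simp
        ring
      rw [hD', hD, mul_assoc, mul_assoc] at r4
      exact mul_left_cancel₀ (pow_ne_zero n hz) r4
    have cF : ContinuousAt (fun z : ℂ => ((n : ℂ) * g z + z * deriv g z) *
        (z ^ 3 * (P' z + Q' z) - 4)) 0 := by
      have c1 := ag.continuousAt
      have c2 := ag.deriv.continuousAt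
      have c3 := aP'.continuousAt
      have c4 := aQ'.continuousAt
      fun_prop
    have cG : ContinuousAt (fun z : ℂ => g z * (4 * (z ^ 4 * (P z ^ 2 + P z * Q z + Q z ^ 2) +
        3 * z ^ 2 * (P z + Q z) + 3) - L.g₂ * z ^ 4)) 0 := by
      have c1 := ag.continuousAt
      have c3 := aP.continuousAt
      have c4 := aQ.continuousAt
      fun_prop
    have := ((cF.eventuallyEq_nhds_iff_eventuallyEq_nhdsNE cG).1 hF).self_of_nhds
    simp only [zero_mul, add_zero, mul_zero, ne_eq, OfNat.ofNat_ne_zero, not_false_eq_true,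
      zero_pow, zero_sub, zero_add, sub_zero] at this
    have h4 : g 0 * ((n : ℂ) + 3) = 0 := by linear_combination (-1 / 4 : ℂ) * this
    rcases mul_eq_zero.1 h4 with h | h
    · exact g0 h
    · have : ((n + 3 : ℕ) : ℂ) = 0 := by push_cast; exact h
      have := Nat.cast_eq_zero.1 this
      omega
  filter_upwards [mem_nhdsWithin_of_mem_nhds key] with z hz
  rw [eP, eQ, sub_eq_zero.1 hz]

lemma countable_lattice (L : PeriodPair) : (L.lattice : Set ℂ).Countable :=
  countable_of_Lindelof_of_discrete (X := L.lattice)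

lemma all (L M : PeriodPair) (h2' : M.g₂ = L.g₂) (h3' : M.g₃ = L.g₃) (z : ℂ)
    (hL : z ∉ L.lattice) (hM : z ∉ M.lattice) : ℘[L] z = ℘[M] z := by
  set U : Set ℂ := ((L.lattice : Set ℂ) ∪ (M.lattice : Set ℂ))ᶜ with hU
  have hUo : IsOpen U := (L.isClosed_lattice.union M.isClosed_lattice).isOpen_compl
  have hUc : IsPreconnected U := (Set.Countable.isConnected_compl_of_one_lt_rank (by simp)
    ((countable_lattice L).union (countable_lattice M))).2
  have aL : AnalyticOnNhd ℂ ℘[L] U := L.analyticOnNhd_weierstrassP.mono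
    (Set.compl_subset_compl.2 Set.subset_union_left)
  have aM : AnalyticOnNhd ℂ ℘[M] U := M.analyticOnNhd_weierstrassP.mono
    (Set.compl_subset_compl.2 Set.subset_union_right)
  -- a point near zero
  have hn := near L M h2' h3'
  have hp : ∀ᶠ z in 𝓝[≠] (0 : ℂ), (∀ᶠ w in 𝓝 z, ℘[L] w = ℘[M] w) ∧ z ∈ U := by
    have h1 := (eventually_nhdsWithin_iff.1 hn).eventually_nhds
    filter_upwards [mem_nhdsWithin_of_mem_nhds h1, self_mem_nhdsWithin, punct L 0, punct M 0]
      with z hz hz0 h4 h5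
    refine ⟨?_, by simp [hU, h4, h5]⟩
    have hz0' : z ≠ 0 := hz0
    filter_upwards [hz, isOpen_ne.mem_nhds hz0'] with w hw hw0
    exact hw hw0
  obtain ⟨z₀, h0, h0U⟩ := hp.exists
  exact aL.eqOn_of_preconnected_of_eventuallyEq aM hUc h0U h0 (by simp [hU, hL, hM])

lemma sub_lattice (L M : PeriodPair) (h2' : M.g₂ = L.g₂) (h3' : M.g₃ = L.g₃) (x : ℂ)
    (hx : x ∈ L.lattice) : x ∈ M.lattice := by
  by_contra hM
  have h1 : meromorphicOrderAt ℘[L] x = -2 := L.order_weierstrassP x hx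
  have h2 : 0 ≤ meromorphicOrderAt ℘[M] x :=
    (M.analyticOnNhd_weierstrassP x hM).meromorphicOrderAt_nonneg
  have h3 : meromorphicOrderAt ℘[L] x = meromorphicOrderAt ℘[M] x := by
    apply meromorphicOrderAt_congr
    filter_upwards [punct L x, punct M x] with z h4 h5
    exact all L M h2' h3' z h4 h5
  rw [← h3, h1] at h2
  exact absurd h2 (by decide)

lemma lattice_eq (L M : PeriodPair) (h2' : M.g₂ = L.g₂) (h3' : M.g₃ = L.g₃) :
    L.lattice = M.lattice :=
  le_antisymm (fun x hx => sub_lattice L M h2' h3' x hx)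
    (fun x hx => sub_lattice M L h2'.symm h3'.symm x hx)

lemma det (L M : PeriodPair) (h : ∀ x ∈ M.lattice, x ∈ L.lattice) :
    ∃ k : ℤ, (M.ω₁ * conj M.ω₂).im = k * (L.ω₁ * conj L.ω₂).im := by
  obtain ⟨a, b, e1⟩ := mem_lattice.1 (h _ M.ω₁_mem_lattice)
  obtain ⟨c, d, e2⟩ := mem_lattice.1 (h _ M.ω₂_mem_lattice)
  refine ⟨a * d - b * c, ?_⟩
  rw [← e1, ← e2]
  simp
  ring

lemma abs_eq (L M : PeriodPair) (h : L.lattice = M.lattice) :
    |(M.ω₁ * conj M.ω₂).im| = |(L.ω₁ * conj L.ω₂).im| := by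
  obtain ⟨k, hk⟩ := det L M (fun x hx => by rw [h]; exact hx)
  obtain ⟨l, hl⟩ := det M L (fun x hx => by rw [← h]; exact hx)
  have h1 : (M.ω₁ * conj M.ω₂).im = ((k * l : ℤ) : ℝ) * (M.ω₁ * conj M.ω₂).im := by
    push_cast
    rw [mul_assoc, ← hl, ← hk]
  by_cases h0 : (M.ω₁ * conj M.ω₂).im = 0
  · rw [hl, h0]; simp
  · have h2 : ((k * l : ℤ) : ℝ) = 1 := by
      have := mul_right_cancel₀ h0 ((one_mul _).trans h1)
      exact this.symm
    have h3 : k * l = 1 := by exact_mod_cast h2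
    have h4 : |k| = 1 := by
      rcases Int.eq_one_or_neg_one_of_mul_eq_one h3 with h | h <;> simp [h]
    rw [hk, abs_mul, ← Int.cast_abs, h4]
    simp

/-- the conjugate pair -/
noncomputable def cj (L : PeriodPair) : PeriodPair where
  ω₁ := conj L.ω₁
  ω₂ := conj L.ω₂
  indep := by
    refine LinearIndependent.pair_iff.2 fun s t h => LinearIndependent.pair_iff.1 L.indep s t ?_
    have := congrArg (starRingEnd ℂ) h
    simpa using this

lemma cj_mem (L : PeriodPair) (x : ℂ) (hx : x ∈ L.lattice) : conj x ∈ (cj L).lattice := by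
  obtain ⟨m, n, e⟩ := mem_lattice.1 hx
  refine mem_lattice.2 ⟨m, n, ?_⟩
  rw [← e]
  simp [cj]

lemma cj_mem' (L : PeriodPair) (x : ℂ) (hx : x ∈ (cj L).lattice) : conj x ∈ L.lattice := by
  obtain ⟨m, n, e⟩ := mem_lattice.1 hx
  refine mem_lattice.2 ⟨m, n, ?_⟩
  rw [← e]
  simp [cj]

lemma cj_G (L : PeriodPair) (n : ℕ) : (cj L).G n = conj (L.G n) := by
  let e : L.lattice ≃ (cj L).lattice :=
    { toFun := fun x => ⟨conj x.1, cj_mem L x.1 x.2⟩
      invFun := fun x => ⟨conj x.1, cj_mem' L x.1 x.2⟩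
      left_inv := fun x => by simp
      right_inv := fun x => by simp }
  unfold PeriodPair.G
  rw [← e.tsum_eq, Complex.conj_tsum]
  apply tsum_congr
  intro x
  simp [e]

theorem per (L L' : PeriodPair) (h : (L'.g₂ = L.g₂ ∧ L'.g₃ = L.g₃) ∨
    (L'.g₂ = conj L.g₂ ∧ L'.g₃ = conj L.g₃)) :
    |(L'.ω₁ * conj L'.ω₂).im| = |(L.ω₁ * conj L.ω₂).im| := by
  rcases h with ⟨h2, h3⟩ | ⟨h2, h3⟩
  · exact abs_eq L L' (lattice_eq L L' h2 h3)
  · have e1 : L'.g₂ = (cj L).g₂ := by
      rw [h2]; simp [PeriodPair.g₂, cj_G, map_ofNat]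
    have e2 : L'.g₃ = (cj L).g₃ := by
      rw [h3]; simp [PeriodPair.g₃, cj_G, map_ofNat]
    rw [abs_eq (cj L) L' (lattice_eq (cj L) L' e1 e2)]
    have : ((cj L).ω₁ * conj (cj L).ω₂).im = -(L.ω₁ * conj L.ω₂).im := by
      simp [cj]
      ring
    rw [this, abs_neg]

end Pool.Agent.L7h65.RL2
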