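import Pool.Agent.L7h82.RL.Stm
import Pool.Agent.L7h65.RL2.Per0

/-!
# Project RL, part PER
-/

set_option autoImplicit false

namespace Pool.Agent.L7h65.RL2

open scoped ComplexConjugate

theorem s_PER : Pool.Agent.L7h82.RL.S_PER := fun L L' h => per L L' h

end Pool.Agent.L7h65.RL2
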