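import Pool.Agent.L7h82.RL.Stm3

set_option autoImplicit false
set_option linter.unusedSectionVars false

/-! Project RL: a rational representation of a finite commutative group is diagonalizable over `ℂ` (`S_EXC`). -/

namespace Pool.Agent.L7h65.RL2

open Pool.Agent.L7h82.RL

/-- the sum of the values of the characters at `g ≠ 1` -/
theorem sum_char {G : Type} [CommGroup G] [Finite G] [Fintype (G →* ℂˣ)] (g : G) (hg : g ≠ 1) :
    ∑ φ : G →* ℂˣ, ((φ g : ℂˣ) : ℂ) = 0 := by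
  obtain ⟨φ₀, h0⟩ := CommGroup.exists_apply_ne_one_of_hasEnoughRootsOfUnity G ℂ hg
  have h1 : ∑ φ : G →* ℂˣ, ((φ g : ℂˣ) : ℂ) = ((φ₀ g : ℂˣ) : ℂ) * ∑ φ : G →* ℂˣ, ((φ g : ℂˣ) : ℂ) := by
    rw [Finset.mul_sum]
    refine (Fintype.sum_equiv (Equiv.mulLeft φ₀) _ _ fun φ => ?_).symm
    simp
  have h2 : (1 - ((φ₀ g : ℂˣ) : ℂ)) * ∑ φ : G →* ℂˣ, ((φ g : ℂˣ) : ℂ) = 0 := by
    rw [sub_mul, one_mul, ← h1, sub_self]
  rcases mul_eq_zero.1 h2 with h3 | h3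
  · exact absurd (Units.ext (by simpa using (sub_eq_zero.1 h3).symm)) h0
  · exact h3

/-- **EXC** -/
theorem s_EXC : S_EXC := by
  intro G _ _ k ρ
  classical
  have hfin : Finite (G →* ℂˣ) := by
    obtain ⟨e⟩ := CommGroup.monoidHom_mulEquiv_of_hasEnoughRootsOfUnity G ℂ
    exact Finite.of_equiv G e.symm.toEquiv
  have : Fintype (G →* ℂˣ) := Fintype.ofFinite _
  have : Fintype G := Fintype.ofFinite _
  obtain ⟨A, hA⟩ : ∃ A : G →* Matrix (Fin k) (Fin k) ℂ, ∀ g, A g = (ρ g).map (algebraMap ℚ ℂ) :=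
    ⟨(RingHom.mapMatrix (algebraMap ℚ ℂ) : Matrix (Fin k) (Fin k) ℚ →+* Matrix (Fin k) (Fin k) ℂ).toMonoidHom.comp ρ,
      fun g => rfl⟩
  simp only [← hA]
  -- the simultaneous eigenvectors
  obtain ⟨S, hS⟩ : ∃ S : Set (Fin k → ℂ), S = {v | ∃ ψ : G →* ℂˣ, ∀ g, (A g).mulVec v = ((ψ g : ℂˣ) : ℂ) • v} :=
    ⟨_, rfl⟩
  obtain ⟨D, hD⟩ : ∃ D : ℕ, D = Fintype.card (G →* ℂˣ) := ⟨_, rfl⟩
  have hD0 : (D : ℂ) ≠ 0 := by
    rw [hD]
    exact_mod_cast Fintype.card_ne_zero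
  have hspan : Submodule.span ℂ S = ⊤ := by
    rw [eq_top_iff]
    intro v _
    have h1 : ∀ ψ : G →* ℂˣ, (∑ g, ((ψ g⁻¹ : ℂˣ) : ℂ) • (A g).mulVec v) ∈ Submodule.span ℂ S := by
      intro ψ
      refine Submodule.subset_span ?_
      rw [hS]
      refine ⟨ψ, fun h => ?_⟩
      rw [Matrix.mulVec_sum, Finset.smul_sum]
      refine Fintype.sum_equiv (Equiv.mulLeft h) _ _ fun g => ?_
      rw [Matrix.mulVec_smul, Matrix.mulVec_mulVec, ← map_mul, smul_smul, Equiv.coe_mulLeft]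
      congr 1
      rw [← Units.val_mul, ← map_mul]
      congr 2
      rw [mul_inv, mul_inv_cancel_left]
    have h2 : (∑ ψ : G →* ℂˣ, ∑ g, ((ψ g⁻¹ : ℂˣ) : ℂ) • (A g).mulVec v) = (D : ℂ) • v := by
      rw [Finset.sum_comm, Finset.sum_eq_single 1]
      · rw [map_one, Matrix.one_mulVec, ← Finset.sum_smul]
        congr 1
        simp [hD]
      · intro g _ hg
        rw [← Finset.sum_smul, sum_char g⁻¹ (by simpa using hg), zero_smul]
      · intro h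
        exact absurd (Finset.mem_univ _) h
    have h3 : v = (D : ℂ)⁻¹ • ∑ ψ : G →* ℂˣ, ∑ g, ((ψ g⁻¹ : ℂˣ) : ℂ) • (A g).mulVec v := by
      rw [h2, smul_smul, inv_mul_cancel₀ hD0, one_smul]
    rw [h3]
    exact Submodule.smul_mem _ _ (Submodule.sum_mem _ fun ψ _ => h1 ψ)
  obtain ⟨b, hbS, hbs, hbl⟩ := exists_linearIndependent ℂ S
  have hbt : ⊤ ≤ Submodule.span ℂ (Set.range ((↑) : b → Fin k → ℂ)) := by
    rw [Subtype.range_coe_subtype, Set.ofPred_mem_eq, hbs, hspan]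
  obtain ⟨B, hB⟩ : ∃ B : Module.Basis b ℂ (Fin k → ℂ), ∀ i, B i = (i : Fin k → ℂ) :=
    ⟨Module.Basis.mk hbl hbt, fun i => by simp⟩
  obtain ⟨C, hC⟩ : ∃ C : Module.Basis (Fin k) ℂ (Fin k → ℂ), ∀ i, C i ∈ S := by
    refine ⟨B.reindex (B.indexEquiv (Pi.basisFun ℂ (Fin k))), fun i => ?_⟩
    rw [Module.Basis.reindex_apply, hB]
    exact hbS (Subtype.coe_prop _)
  rw [hS] at hC
  choose ψ hψ using hC
  have hP : IsUnit ((Pi.basisFun ℂ (Fin k)).toMatrix C) := by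
    refine IsUnit.of_mul_eq_one (C.toMatrix (Pi.basisFun ℂ (Fin k))) ?_
    exact Module.Basis.toMatrix_mul_toMatrix_flip _ _
  have hAP : ∀ g, A g * (Pi.basisFun ℂ (Fin k)).toMatrix C =
      (Pi.basisFun ℂ (Fin k)).toMatrix C * Matrix.diagonal fun i => ((ψ i g : ℂˣ) : ℂ) := by
    intro g
    ext i j
    rw [Matrix.mul_diagonal, Matrix.mul_apply]
    have h1 := congrFun (hψ j g) i
    simp only [Matrix.mulVec, dotProduct, Pi.smul_apply, smul_eq_mul] at h1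
    simp only [Module.Basis.toMatrix_apply, Pi.basisFun_repr]
    rw [h1, mul_comm]
  refine ⟨(Pi.basisFun ℂ (Fin k)).toMatrix C, ψ, hP, hAP, fun g => ?_⟩
  obtain ⟨U, hU⟩ := hP
  have h1 := hAP g
  rw [← hU] at h1
  have h2 : A g = U.val * (Matrix.diagonal fun i => ((ψ i g : ℂˣ) : ℂ)) * (U⁻¹).val := by
    rw [← h1, mul_assoc, Units.mul_inv, mul_one]
  rw [h2, Matrix.charpoly_mul_comm, ← mul_assoc, Units.inv_mul, one_mul, Matrix.charpoly_diagonal]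

end Pool.Agent.L7h65.RL2
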